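import Pool.Agent.MWN.StmtsA

/-! Row NTB of squad MWN. -/

namespace Pool.Agent.MWN.H3

open Pool.Agent.MWN Pool.Agent.MWL Pool.Agent.MVO

theorem gg_iff (n : ℕ) (R : FC) (l : ℕ) : GG n R l ↔ ∀ b ∈ ggl l, Has n R b := by
  cases l with
  | zero => simp [GG, ggl]
  | succ l => simp [GG, ggl]

theorem any1 (a : ℕ → ℕ) (i : ℕ) :
    (List.range (i + 1)).any (fun p => Nat.ble 2 (a p)) = true ↔ ∃ p ≤ i, 2 ≤ a p := by
  rw [List.any_eq_true]
  constructor
  · rintro ⟨x, hx, h⟩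
    exact ⟨x, Nat.lt_succ_iff.1 (List.mem_range.1 hx), Nat.le_of_ble_eq_true h⟩
  · rintro ⟨x, hx, h⟩
    exact ⟨x, List.mem_range.2 (Nat.lt_succ_iff.2 hx), Nat.ble_eq_true_of_le h⟩

theorem any2 (a : ℕ → ℕ) (i k m : ℕ) :
    (List.range (k + 1)).any (fun q => Nat.blt i q && Nat.ble m (a q)) = true ↔
      ∃ q, i < q ∧ q ≤ k ∧ m ≤ a q := by
  rw [List.any_eq_true]
  constructor
  · rintro ⟨x, hx, h⟩
    rw [Bool.and_eq_true] at h
    exact ⟨x, Nat.le_of_ble_eq_true h.1, Nat.lt_succ_iff.1 (List.mem_range.1 hx),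
      Nat.le_of_ble_eq_true h.2⟩
  · rintro ⟨x, h1, hx, h⟩
    refine ⟨x, List.mem_range.2 (Nat.lt_succ_iff.2 hx), ?_⟩
    rw [Bool.and_eq_true]
    exact ⟨Nat.ble_eq_true_of_le h1, Nat.ble_eq_true_of_le h⟩

theorem ntb (hvp : HvpStmt) (ta1 : Ta1Stmt) (ta2 : Ta2Stmt) : NtbStmt := by
  intro n R hR k a i hik hdeg
  obtain ⟨t1, t2, t3, t4⟩ := ta1 n R hR k a i hik
  unfold tb
  by_cases h1 : ∃ p ≤ i, 2 ≤ a p
  · rw [if_pos ((any1 a i).2 h1)]
    by_cases h0 : a i = 0
    · rw [if_pos h0]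
      have hp : ∃ p < i, 2 ≤ a p := by
        obtain ⟨p, hp, h⟩ := h1
        refine ⟨p, lt_of_le_of_ne hp ?_, h⟩
        rintro rfl
        omega
      by_cases h2 : ∃ q, i < q ∧ q ≤ k ∧ 1 ≤ a q
      · rw [if_pos ((any2 a i k 1).2 h2)]
        have h2' : ∃ q, i < q ∧ q ≤ k ∧ a q ≠ 0 := by
          obtain ⟨q, h, h', h''⟩ := h2
          exact ⟨q, h, h', by omega⟩
        rw [t1 h0 hp h2']
        simp
      · rw [if_neg (fun h => h2 ((any2 a i k 1).1 h))]
        have h2' : ∀ q, i < q → q ≤ k → a q = 0 := by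
          intro q hq hq'
          by_contra hne
          exact h2 ⟨q, hq, hq', by omega⟩
        rw [t2 h0 hp h2']
        simp
    · rw [if_neg h0]
      have := (hvp n R hR k a i hik).1 ⟨h0, h1⟩
      simp [this]
  · rw [if_neg (fun h => h1 ((any1 a i).1 h))]
    have hle : ∀ p ≤ i, a p ≤ 1 := by
      intro p hp
      by_contra hne
      exact h1 ⟨p, hp, by omega⟩
    have hai : a i ≤ 1 := hle i le_rfl
    by_cases h2 : ∃ q, i < q ∧ q ≤ k ∧ 2 ≤ a q
    · rw [if_pos ((any2 a i k 2).2 h2)]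
      by_cases h0 : a i = 0
      · rw [if_pos h0, t3 h0 hle h2]
        exact gg_iff n R _
      · rw [if_neg h0, t4 (by omega) hle h2]
        simp
    · rw [if_neg (fun h => h2 ((any2 a i k 2).1 h))]
      have hall : ∀ p ≤ k, a p ≤ 1 := by
        intro p hp
        by_cases hpi : p ≤ i
        · exact hle p hpi
        · by_contra hne
          exact h2 ⟨p, by omega, hp, by omega⟩
      obtain ⟨u1, u2, u3⟩ := ta2 n R hR k a i hik hall hdeg
      by_cases h0 : a i = 0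
      · rw [if_pos h0]
        by_cases h3 : ∃ q, i < q ∧ q ≤ k ∧ 1 ≤ a q
        · rw [if_pos ((any2 a i k 1).2 h3)]
          have h3' : ∃ q, i < q ∧ q ≤ k ∧ a q ≠ 0 := by
            obtain ⟨q, h, h', h''⟩ := h3
            exact ⟨q, h, h', by omega⟩
          rw [u2 h0 h3', gg_iff n R (lb a i)]
          simp
        · rw [if_neg (fun h => h3 ((any2 a i k 1).1 h))]
          have h3' : ∀ q, i < q → q ≤ k → a q = 0 := by
            intro q hq hq'
            by_contra hne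
            exact h3 ⟨q, hq, hq', by omega⟩
          rw [u3 h0 h3']
          simp
      · rw [if_neg h0, u1 (by omega)]
        simp

end Pool.Agent.MWN.H3
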